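import Pool.Agent.Q17.SICN.Diag

/-!
# Centralizers of Weyl pairs
-/

set_option autoImplicit false

open Finset

namespace Q17.SICN

open Pool.Agent.Y387.SF Pool.Agent.Y387.RU

variable {V : Type*} [NormedAddCommGroup V] [InnerProductSpace ℂ V] [FiniteDimensional ℂ V]
variable {ι : Type*} {d : ℕ} {x : ι → V}

/-- a Weyl pair of symmetries -/
structure WP (d : ℕ) (x : ι → V) (Z T : V ≃ₗᵢ[ℂ] V) (π σ : Equiv.Perm ι) (ζ : ℂ) : Prop where
  hZ : Ind x Z π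
  hT : Ind x T σ
  prim : IsPrimitiveRoot ζ d
  comm : ∀ v, Z (T v) = ζ • T (Z v)

/-- commutator scalars are roots of unity -/
theorem comm_pow (hV : Module.finrank ℂ V = d) {A B : V ≃ₗᵢ[ℂ] V} {ζ : ℂ}
    (hAB : ∀ v, A (B v) = ζ • B (A v)) : ζ ^ d = 1 := by
  set a : V →ₗ[ℂ] V := (A.toLinearEquiv : V →ₗ[ℂ] V) with ha
  set b : V →ₗ[ℂ] V := (B.toLinearEquiv : V →ₗ[ℂ] V) with hb
  have h1 : a * b = ζ • (b * a) := by
    ext v
    exact hAB v
  have h2 := congrArg LinearMap.det h1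
  rw [map_mul, LinearMap.det_smul, hV, map_mul] at h2
  have ha0 : LinearMap.det a ≠ 0 := (LinearEquiv.isUnit_det' A.toLinearEquiv).ne_zero
  have hb0 : LinearMap.det b ≠ 0 := (LinearEquiv.isUnit_det' B.toLinearEquiv).ne_zero
  have h3 : (ζ ^ d - 1) * (LinearMap.det b * LinearMap.det a) = 0 := by
    linear_combination -h2
  rcases mul_eq_zero.1 h3 with h4 | h4
  · exact sub_eq_zero.1 h4
  · exact absurd h4 (mul_ne_zero hb0 ha0)

omit [FiniteDimensional ℂ V] in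
theorem comm_pow_right {A B : V ≃ₗᵢ[ℂ] V} {ζ : ℂ}
    (hAB : ∀ v, A (B v) = ζ • B (A v)) (n : ℕ) (v : V) :
    A ((B ^ n) v) = ζ ^ n • (B ^ n) (A v) := by
  induction n generalizing v with
  | zero => simp
  | succ n ih =>
    rw [pow_succ']
    change A (B ((B ^ n) v)) = ζ ^ (n + 1) • B ((B ^ n) (A v))
    rw [hAB, ih, map_smul, smul_smul, pow_succ']

omit [FiniteDimensional ℂ V] in
theorem comm_pow_left {A B : V ≃ₗᵢ[ℂ] V} {ζ : ℂ}
    (hAB : ∀ v, A (B v) = ζ • B (A v)) (n : ℕ) (v : V) :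
    (A ^ n) (B v) = ζ ^ n • B ((A ^ n) v) := by
  induction n generalizing v with
  | zero => simp
  | succ n ih =>
    rw [pow_succ]
    change (A ^ n) (A (B v)) = ζ ^ (n + 1) • B ((A ^ n) (A v))
    rw [hAB, map_smul, ih, smul_smul, pow_succ']

variable {Z T : V ≃ₗᵢ[ℂ] V} {π σ : Equiv.Perm ι} {ζ : ℂ}

omit [FiniteDimensional ℂ V] in
theorem WP.commute (h : IsEtf d x) (hd : 1 ≤ d) (w : WP d x Z T π σ ζ) : π * σ = σ * π :=
  perm_eq h hd (w.hZ.mul w.hT) (w.hT.mul w.hZ) (c := ζ) w.comm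

variable [Fintype ι]

/-- the Weyl group is regular on lines -/
theorem WP.bij [NeZero d] (h : IsEtf d x) (hcard : Fintype.card ι = d ^ 2)
    (hV : Module.finrank ℂ V = d) (w : WP d x Z T π σ ζ) (i : ι) :
    Function.Bijective (fun ab : ZMod d × ZMod d => (π ^ ab.1.val * σ ^ ab.2.val) i) := by
  obtain ⟨e, ψ, l, m, c⟩ := exists_coord hV w.prim w.comm
  exact weyl_bij h hcard c w.hZ w.hT i

/-- **the centralizer of the clock** -/
theorem WP.centralizer (h : IsEtf d x) (hd : 1 ≤ d) (hcard : Fintype.card ι = d ^ 2)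
    (hV : Module.finrank ℂ V = d) (hd3 : d ≠ 3) (w : WP d x Z T π σ ζ) (i : ι)
    {U : V ≃ₗᵢ[ℂ] V} {ρ : Equiv.Perm ι} (hU : Ind x U ρ) {c : ℂ}
    (hc : ∀ v, Z (U v) = c • U (Z v)) :
    ∃ a b : ℕ, a < d ∧ b < d ∧ ρ = π ^ a * σ ^ b := by
  have : NeZero d := ⟨by omega⟩
  obtain ⟨e, ψ, l, m, cc⟩ := exists_coord hV w.prim w.comm
  have h1 := comm_pow hV hc
  obtain ⟨k, hk, rfl⟩ := w.prim.eq_pow_of_pow_eq_one h1
  -- the quotient by a power of the shift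
  have hD : Ind x ((T ^ k)⁻¹ * U) ((σ ^ k)⁻¹ * ρ) := ((ind_pow w.hT k).inv h).mul hU
  have hcomm : ∀ v, Z (((T ^ k)⁻¹ * U) v) = ((T ^ k)⁻¹ * U) (Z v) := by
    intro v
    have hζ0 : ζ ^ k ≠ 0 := pow_ne_zero _ (w.prim.ne_zero (by omega))
    have h2 : (T ^ k) (((T ^ k)⁻¹ * U) v) = U v := (T ^ k).apply_symm_apply (U v)
    have h3 := comm_pow_right w.comm k (((T ^ k)⁻¹ * U) v)
    rw [h2, hc] at h3
    have h4 : U (Z v) = (T ^ k) (Z (((T ^ k)⁻¹ * U) v)) := smul_right_injective V hζ0 h3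
    change _ = (T ^ k).symm (U (Z v))
    rw [h4, LinearIsometryEquiv.symm_apply_apply]
  obtain ⟨a, ha⟩ := diag_sym h hcard hd3 cc w.hZ w.hT hD hcomm i
  refine ⟨a.val, k, ZMod.val_lt a, hk, ?_⟩
  have h5 : Commute (π ^ a.val) (σ ^ k) := (show Commute π σ from w.commute h hd).pow_pow _ _
  rw [h5.eq, ← ha, mul_inv_cancel_left]

/-- symmetries whose permutations commute -/
theorem scalar_of_commute (h : IsEtf d x) (hd : 1 ≤ d) (hcard : Fintype.card ι = d ^ 2)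
    (hV : Module.finrank ℂ V = d) {A B : V ≃ₗᵢ[ℂ] V} {α β : Equiv.Perm ι} (hA : Ind x A α)
    (hB : Ind x B β) (hαβ : α * β = β * α) : ∃ ζ : ℂ, ‖ζ‖ = 1 ∧ ∀ v, A (B v) = ζ • B (A v) := by
  have hInd : Ind x ((A * B) * (B * A)⁻¹) 1 := by
    have h1 := (hA.mul hB).mul ((hB.mul hA).inv h)
    rwa [hαβ, mul_inv_cancel] at h1
  obtain ⟨ζ, hζ1, hζ⟩ := fix_all h hd hcard hV hInd
  refine ⟨ζ, hζ1, fun v => ?_⟩
  have h1 := hζ ((B * A) v)
  change (A * B) ((B * A)⁻¹ ((B * A) v)) = ζ • B (A v) at h1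
  have h2 : (B * A)⁻¹ ((B * A) v) = v := (B * A).symm_apply_apply v
  rw [h2] at h1
  exact h1

/-- a central element of order the dimension is part of a Weyl pair -/
theorem exists_wp (h : IsEtf d x) (hd : 1 ≤ d) (hcard : Fintype.card ι = d ^ 2)
    (hV : Module.finrank ℂ V = d) (G : Subgroup (Equiv.Perm ι))
    (hG : ∀ π ∈ G, ∃ U : V ≃ₗᵢ[ℂ] V, Ind x U π) (htr : ∀ i j, ∃ π ∈ G, π i = j) (i₀ : ι)
    {π : Equiv.Perm ι} {Z : V ≃ₗᵢ[ℂ] V} (hZ : Ind x Z π) (hπc : ∀ g ∈ G, π * g = g * π)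
    (hord : orderOf π = d) :
    ∃ (T : V ≃ₗᵢ[ℂ] V) (σ : Equiv.Perm ι) (ζ : ℂ), σ ∈ G ∧ WP d x Z T π σ ζ := by
  classical
  -- the group of commutator scalars
  let S : Subgroup ℂˣ :=
    { carrier := {s | ∃ g ∈ G, ∃ U : V ≃ₗᵢ[ℂ] V, Ind x U g ∧ ∀ v, Z (U v) = (s : ℂ) • U (Z v)}
      one_mem' := ⟨1, one_mem G, 1, Ind.one, fun v => by simp⟩
      mul_mem' := by
        rintro s s' ⟨g, hg, U, hU, hs⟩ ⟨g', hg', U', hU', hs'⟩
        refine ⟨g * g', mul_mem hg hg', U * U', hU.mul hU', fun v => ?_⟩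
        change Z (U (U' v)) = _ • U (U' (Z v))
        rw [hs, hs', map_smul, smul_smul, Units.val_mul]
      inv_mem' := by
        rintro s ⟨g, hg, U, hU, hs⟩
        refine ⟨g⁻¹, inv_mem hg, U⁻¹, hU.inv h, fun v => ?_⟩
        have h1 := hs (U⁻¹ v)
        have h2 : U (U⁻¹ v) = v := U.apply_symm_apply v
        rw [h2] at h1
        have h3 : U⁻¹ (Z v) = (s : ℂ) • Z (U⁻¹ v) := by
          rw [h1, map_smul]
          congr 1
          exact U.symm_apply_apply _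
        rw [h3, smul_smul, ← Units.val_mul, inv_mul_cancel, Units.val_one, one_smul] }
  have hSd : ∀ s ∈ S, s ^ d = 1 := by
    rintro s ⟨g, hg, U, hU, hs⟩
    have h1 := comm_pow hV hs
    exact Units.ext (by rw [Units.val_pow_eq_pow_val, h1, Units.val_one])
  have hne : NeZero d := ⟨by omega⟩
  have hfin : Finite S := by
    have h1 : Finite (rootsOfUnity d ℂ) := inferInstance
    have h2 : S ≤ rootsOfUnity d ℂ := fun s hs => (mem_rootsOfUnity d s).2 (hSd s hs)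
    exact Finite.of_injective (Subgroup.inclusion h2) (Subgroup.inclusion_injective h2)
  obtain ⟨⟨s, hs⟩, hgen⟩ := IsCyclic.exists_generator (α := S)
  have hall : ∀ t ∈ S, t ^ orderOf s = 1 := by
    intro t ht
    obtain ⟨n, hn⟩ := Subgroup.mem_zpowers_iff.1 (hgen ⟨t, ht⟩)
    have h1 : s ^ n = t := congrArg (fun q : S => (q : ℂˣ)) hn
    rw [← h1, ← zpow_natCast, ← zpow_mul, mul_comm, zpow_mul, zpow_natCast, pow_orderOf_eq_one,
      one_zpow]
  obtain ⟨g, hg, U, hU, hsU⟩ := id hs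
  -- the order of the generator is `d`
  have hZe : ∃ c : ℂ, ∀ v, ((Z ^ orderOf s).toLinearEquiv : V →ₗ[ℂ] V) v = c • v := by
    apply commutant h hd hcard hV _ i₀
    intro k
    obtain ⟨g', hg', hgk⟩ := htr i₀ k
    obtain ⟨B, hB⟩ := hG g' hg'
    obtain ⟨c, hc⟩ := hB i₀
    refine ⟨B, c, by rw [hc, hgk], fun v => ?_⟩
    obtain ⟨t, ht1, ht⟩ := scalar_of_commute h hd hcard hV hZ hB (hπc g' hg')
    have ht0 : t ≠ 0 := ne_zero_of_norm_one ht1
    have h1 : Units.mk0 t ht0 ∈ S := ⟨g', hg', B, hB, ht⟩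
    have h2 := congrArg (fun q : ℂˣ => (q : ℂ)) (hall _ h1)
    simp only [Units.val_pow_eq_pow_val, Units.val_mk0, Units.val_one] at h2
    have h3 := comm_pow_left ht (orderOf s) v
    rw [h2, one_smul] at h3
    exact h3
  obtain ⟨c, hc⟩ := hZe
  have h1 : π ^ orderOf s = 1 :=
    perm_eq h hd (ind_pow hZ (orderOf s)) Ind.one (c := c) hc
  have h2 : d ∣ orderOf s := by
    rw [← hord]
    exact orderOf_dvd_of_pow_eq_one h1
  have h3 : orderOf s = d := Nat.dvd_antisymm (orderOf_dvd_of_pow_eq_one (hSd s hs)) h2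
  refine ⟨U, g, (s : ℂ), hg, hZ, hU, ?_, hsU⟩
  rw [← h3]
  exact IsPrimitiveRoot.coe_units_iff.2 (IsPrimitiveRoot.orderOf s)

end Q17.SICN
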