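import Mathlib

/-!
# Character sums over `ZMod d`
-/

set_option autoImplicit false

open Finset

namespace Q17.SICN

variable {d : ℕ} [NeZero d] {ψ : AddChar (ZMod d) ℂ}

theorem char_norm (ψ : AddChar (ZMod d) ℂ) (a : ZMod d) : ‖ψ a‖ = 1 := by
  exact AddChar.norm_apply ψ a

theorem char_conj (ψ : AddChar (ZMod d) ℂ) (a : ZMod d) : (starRingEnd ℂ) (ψ a) = ψ (-a) := by
  rw [AddChar.map_neg_eq_inv]
  exact (Complex.inv_eq_conj (char_norm ψ a)).symm

theorem char_sum (hψ : ψ.IsPrimitive) (b : ZMod d) :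
    ∑ a : ZMod d, ψ (a * b) = if b = 0 then (d : ℂ) else 0 := by
  classical
  rw [AddChar.sum_mulShift b hψ, ZMod.card]
  push_cast
  rfl

/-- Parseval -/
theorem parseval (hψ : ψ.IsPrimitive) (f : ZMod d → ℂ) :
    ∑ a : ZMod d, ‖∑ j, f j * ψ (a * j)‖ ^ 2 = (d : ℝ) * ∑ j, ‖f j‖ ^ 2 := by
  classical
  have h1 : ((∑ a : ZMod d, ‖∑ j, f j * ψ (a * j)‖ ^ 2 : ℝ) : ℂ) =
      (((d : ℝ) * ∑ j, ‖f j‖ ^ 2 : ℝ) : ℂ) := by
    push_cast
    have e1 : ∀ a : ZMod d, ((‖∑ j, f j * ψ (a * j)‖ : ℂ)) ^ 2 =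
        ∑ j, ∑ k, f j * (starRingEnd ℂ) (f k) * ψ (a * (j - k)) := by
      intro a
      rw [← Complex.mul_conj', map_sum, sum_mul_sum]
      refine sum_congr rfl fun j _ => sum_congr rfl fun k _ => ?_
      rw [map_mul (starRingEnd ℂ), char_conj, mul_sub, sub_eq_add_neg, AddChar.map_add_eq_mul]
      ring
    rw [sum_congr rfl fun a _ => e1 a, sum_comm, mul_sum]
    refine sum_congr rfl fun j _ => ?_
    rw [sum_comm]
    have e2 : ∀ k, ∑ a : ZMod d, f j * (starRingEnd ℂ) (f k) * ψ (a * (j - k)) =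
        if k = j then (d : ℂ) * (‖f j‖ : ℂ) ^ 2 else 0 := by
      intro k
      rw [← mul_sum, char_sum hψ]
      by_cases h : k = j
      · rw [if_pos h, h, sub_self, if_pos rfl, Complex.mul_conj']
        ring
      · rw [if_neg h, if_neg (fun h0 => h (sub_eq_zero.1 h0).symm), mul_zero]
    rw [sum_congr rfl fun k _ => e2 k, sum_ite_eq', if_pos (mem_univ _)]
  exact_mod_cast h1

/-- the autocorrelation of a weight with flat power spectrum -/
theorem autocorr (hψ : ψ.IsPrimitive) (u : ZMod d → ℝ) (h1 : ∑ j, u j = 1)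
    (h2 : ∀ l : ZMod d, l ≠ 0 → ‖∑ j, (u j : ℂ) * ψ (l * j)‖ ^ 2 = 1 / ((d : ℝ) + 1))
    (h : ZMod d) :
    ∑ j, u j * u (j + h) = (1 + if h = 0 then 1 else 0) / ((d : ℝ) + 1) := by
  classical
  have hd0 : (d : ℂ) ≠ 0 := by exact_mod_cast NeZero.ne d
  have hd1 : (d : ℂ) + 1 ≠ 0 := by exact_mod_cast d.succ_ne_zero
  have e0 : ∀ l : ZMod d, ((‖∑ j, (u j : ℂ) * ψ (l * j)‖ : ℂ)) ^ 2 =
      1 / ((d : ℂ) + 1) + if l = 0 then (d : ℂ) / (d + 1) else 0 := by
    intro l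
    by_cases hl : l = 0
    · rw [if_pos hl, hl]
      have : ∑ j, (u j : ℂ) * ψ (0 * j) = 1 := by
        simp only [zero_mul, AddChar.map_zero_eq_one, mul_one]
        exact_mod_cast h1
      rw [this]
      simp only [norm_one, Complex.ofReal_one, one_pow]
      field_simp
      ring
    · rw [if_neg hl, add_zero]
      rw [← Complex.ofReal_pow, h2 l hl]
      push_cast
      rfl
  have e1 : ∀ l : ZMod d, ((‖∑ j, (u j : ℂ) * ψ (l * j)‖ : ℂ)) ^ 2 =
      ∑ j, ∑ k, (u j : ℂ) * (u k : ℂ) * ψ (l * (j - k)) := by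
    intro a
    rw [← Complex.mul_conj', map_sum, sum_mul_sum]
    refine sum_congr rfl fun j _ => sum_congr rfl fun k _ => ?_
    rw [map_mul (starRingEnd ℂ), char_conj, mul_sub, sub_eq_add_neg, AddChar.map_add_eq_mul,
      Complex.conj_ofReal]
    ring
  have e2 : ∑ l : ZMod d, ψ (l * h) * ((‖∑ j, (u j : ℂ) * ψ (l * j)‖ : ℂ)) ^ 2 =
      (d : ℂ) * ∑ j, (u j : ℂ) * (u (j + h) : ℂ) := by
    simp_rw [e1]
    simp_rw [mul_sum]
    rw [sum_comm]
    refine sum_congr rfl fun j _ => ?_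
    rw [sum_comm]
    have e3 : ∀ k, ∑ a : ZMod d, ψ (a * h) * ((u j : ℂ) * (u k : ℂ) * ψ (a * (j - k))) =
        if k = j + h then (d : ℂ) * ((u j : ℂ) * (u (j + h) : ℂ)) else 0 := by
      intro k
      have e4 : ∀ a : ZMod d, ψ (a * h) * ((u j : ℂ) * (u k : ℂ) * ψ (a * (j - k))) =
          (u j : ℂ) * (u k : ℂ) * ψ (a * (j + h - k)) := by
        intro a
        have : a * (j + h - k) = a * h + a * (j - k) := by ring
        rw [this, AddChar.map_add_eq_mul]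
        ring
      rw [sum_congr rfl fun a _ => e4 a, ← mul_sum, char_sum hψ]
      by_cases hk : k = j + h
      · rw [if_pos hk, hk, sub_self, if_pos rfl]
        ring
      · rw [if_neg hk, if_neg (fun h0 => hk (sub_eq_zero.1 h0).symm), mul_zero]
    rw [sum_congr rfl fun k _ => e3 k, sum_ite_eq', if_pos (mem_univ _)]
  have e5 : ∑ l : ZMod d, ψ (l * h) * ((‖∑ j, (u j : ℂ) * ψ (l * j)‖ : ℂ)) ^ 2 =
      (if h = 0 then (d : ℂ) else 0) / (d + 1) + (d : ℂ) / (d + 1) := by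
    simp_rw [e0, mul_add]
    rw [sum_add_distrib, ← sum_mul, char_sum hψ]
    congr 1
    · ring
    · simp_rw [mul_ite, mul_zero]
      rw [sum_ite_eq', if_pos (mem_univ _), zero_mul, AddChar.map_zero_eq_one, one_mul]
  have e6 : (((d : ℝ) * ∑ j, u j * u (j + h) : ℝ) : ℂ) =
      (((d : ℝ) * ((1 + if h = 0 then 1 else 0) / ((d : ℝ) + 1)) : ℝ) : ℂ) := by
    push_cast
    rw [← e2, e5]
    split_ifs
    · push_cast; ring
    · push_cast; ring
  have hd0' : (d : ℝ) ≠ 0 := by exact_mod_cast NeZero.ne d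
  exact mul_left_cancel₀ hd0' (by exact_mod_cast e6)

end Q17.SICN
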