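import Mathlib

/-!
# Weights on `ZMod d` with flat power spectrum
-/

set_option autoImplicit false

open Finset

namespace Q17.SICN

variable {d : ℕ} [NeZero d]

/-- the combinatorial core: if the overlap of the support with its translate by one lies in a coset
of a proper annihilator, then `d = 3` -/
theorem comb (u : ZMod d → ℝ) (h1 : ∑ j, u j = 1)
    (hc : ∀ h : ZMod d, ∑ j, u j * u (j + h) = (1 + if h = 0 then 1 else 0) / ((d : ℝ) + 1))
    (s ρ : ZMod d) (hs : s ≠ 0) (hJ : ∀ j, u j ≠ 0 → u (j + 1) ≠ 0 → s * j = ρ) : d = 3 := by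
  classical
  have hd0 : (0 : ℝ) < (d : ℝ) + 1 := by positivity
  have h10 : (1 : ZMod d) ≠ 0 := by
    intro h0
    apply hs
    rw [← mul_one s, h0, mul_zero]
  have hc0 := hc 0
  have hc1 := hc 1
  rw [if_pos rfl] at hc0
  rw [if_neg h10] at hc1
  simp only [add_zero] at hc0 hc1
  -- indicator functions
  set χ : ZMod d → ℝ := fun j => if s * j = ρ then 1 else 0 with hχ
  have hχ01 : ∀ j, 0 ≤ χ j := by
    intro j
    simp only [hχ]
    split_ifs <;> norm_num
  have hdis : ∀ j, χ j + χ (j - 1) ≤ 1 := by
    intro j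
    simp only [hχ]
    split_ifs with a b b
    · exfalso
      apply hs
      have : s * j - s * (j - 1) = ρ - ρ := by rw [a, b]
      rw [sub_self] at this
      linear_combination this
    · norm_num
    · norm_num
    · norm_num
  have hmul : ∀ j, u j * u (j + 1) = χ j * (u j * u (j + 1)) := by
    intro j
    by_cases ha : u j = 0
    · rw [ha]; ring
    · by_cases hb : u (j + 1) = 0
      · rw [hb]; ring
      · simp only [hχ]
        rw [if_pos (hJ j ha hb), one_mul]
  have hshift : ∀ f : ZMod d → ℝ, ∑ j, f (j + 1) = ∑ j, f j :=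
    fun f => Equiv.sum_comp (Equiv.addRight (1 : ZMod d)) f
  have hE : ∑ j, ((1 - χ j - χ (j - 1)) * (u j * u j) + χ j * (u j - u (j + 1)) ^ 2) = 0 := by
    have e1 : ∑ j, ((1 - χ j - χ (j - 1)) * (u j * u j) + χ j * (u j - u (j + 1)) ^ 2) =
        ∑ j, u j * u j - ∑ j, χ (j - 1) * (u j * u j) + ∑ j, χ j * (u (j + 1) * u (j + 1))
          - 2 * ∑ j, χ j * (u j * u (j + 1)) := by
      rw [mul_sum, ← sum_sub_distrib, ← sum_add_distrib, ← sum_sub_distrib]
      exact sum_congr rfl fun j _ => by ring
    have e2 : ∑ j, χ j * (u (j + 1) * u (j + 1)) = ∑ j, χ (j - 1) * (u j * u j) := by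
      rw [← hshift (fun j => χ (j - 1) * (u j * u j))]
      exact sum_congr rfl fun j _ => by rw [add_sub_cancel_right]
    rw [e1, e2, hc0, ← sum_congr rfl (fun j _ => hmul j), hc1]
    ring
  have hE' := (sum_eq_zero_iff_of_nonneg (fun j _ => add_nonneg
    (mul_nonneg (by linarith [hdis j]) (mul_self_nonneg (u j)))
    (mul_nonneg (hχ01 j) (sq_nonneg (u j - u (j + 1)))))).1 hE
  have hA : ∀ j, (1 - χ j - χ (j - 1)) * (u j * u j) = 0 := by
    intro j
    have h2 := hE' j (mem_univ j)
    have h3 : 0 ≤ (1 - χ j - χ (j - 1)) * (u j * u j) :=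
      mul_nonneg (by linarith [hdis j]) (mul_self_nonneg (u j))
    have h4 : 0 ≤ χ j * (u j - u (j + 1)) ^ 2 := mul_nonneg (hχ01 j) (sq_nonneg _)
    linarith
  have hB : ∀ j, χ j * (u j - u (j + 1)) = 0 := by
    intro j
    have h2 := hE' j (mem_univ j)
    rw [hA j, zero_add] at h2
    rcases mul_eq_zero.1 h2 with h5 | h5
    · rw [h5, zero_mul]
    · rw [pow_eq_zero_iff (by norm_num)] at h5
      rw [h5, mul_zero]
  have hA' : ∀ j, (1 - χ j - χ (j - 1)) * u j = 0 := by
    intro j
    have h2 := hA j
    rw [← mul_assoc] at h2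
    rcases mul_eq_zero.1 h2 with h3 | h3
    · exact h3
    · rw [h3, mul_zero]
  -- masses
  have hM : ∑ j, χ j * u j = ∑ j, χ (j - 1) * u j := by
    have e1 : ∑ j, χ j * u j = ∑ j, χ j * u (j + 1) :=
      sum_congr rfl fun j _ => by linarith [hB j, mul_sub (χ j) (u j) (u (j + 1))]
    rw [e1, ← hshift (fun j => χ (j - 1) * u j)]
    exact sum_congr rfl fun j _ => by rw [add_sub_cancel_right]
  have hM1 : ∑ j, χ j * u j + ∑ j, χ (j - 1) * u j = 1 := by
    rw [← sum_add_distrib, ← h1]
    exact sum_congr rfl fun j _ => by linarith [hA' j]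
  have hMa : ∑ j, χ j * u j = 1 / 2 := by linarith
  have hMb : ∑ j, χ (j - 1) * u j = 1 / 2 := by linarith
  -- the annihilator of `s`
  set H : AddSubgroup (ZMod d) := (AddMonoidHom.mulLeft s).ker with hH
  have hHmem : ∀ h : ZMod d, h ∈ H ↔ s * h = 0 := by
    intro h
    rw [hH, AddMonoidHom.mem_ker, AddMonoidHom.coe_mulLeft]
  have hcard : ((univ.filter fun h : ZMod d => s * h = 0).card) = Nat.card H := by
    rw [← Fintype.card_subtype, ← Nat.card_eq_fintype_card]
    exact Nat.card_congr (Equiv.subtypeEquivRight fun h => (hHmem h).symm)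
  have hdvd : Nat.card H ∣ d := by
    have h2 := AddSubgroup.card_addSubgroup_dvd_card H
    rwa [Nat.card_eq_fintype_card (α := ZMod d), ZMod.card] at h2
  have hS1 : ∑ h ∈ univ.filter (fun h : ZMod d => s * h = 0), ∑ j, u j * u (j + h) =
      ((Nat.card H : ℝ) + 1) / ((d : ℝ) + 1) := by
    rw [sum_congr rfl fun h _ => hc h, ← sum_div, sum_add_distrib, sum_const, hcard,
      sum_ite_eq', if_pos (by rw [mem_filter]; exact ⟨mem_univ _, mul_zero s⟩)]
    simp
  have hS2 : ∑ h ∈ univ.filter (fun h : ZMod d => s * h = 0), ∑ j, u j * u (j + h) = 1 / 2 := by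
    rw [sum_comm]
    have e1 : ∀ j, ∑ h ∈ univ.filter (fun h : ZMod d => s * h = 0), u j * u (j + h) =
        u j * (1 / 2) := by
      intro j
      rw [← mul_sum]
      by_cases hj : u j = 0
      · rw [hj, zero_mul, zero_mul]
      congr 1
      rw [sum_filter]
      have e2 : ∑ h : ZMod d, (if s * h = 0 then u (j + h) else 0) =
          ∑ k : ZMod d, (if s * k = s * j then u k else 0) := by
        rw [← Equiv.sum_comp (Equiv.addLeft j) (fun k => if s * k = s * j then u k else 0)]
        refine sum_congr rfl fun h _ => ?_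
        rw [Equiv.coe_addLeft]
        congr 1
        rw [mul_add, add_eq_left]
      rw [e2]
      have h2 := hA' j
      rcases mul_eq_zero.1 h2 with h3 | h3
      · by_cases h4 : s * j = ρ
        · rw [← hMa]
          refine sum_congr rfl fun k _ => ?_
          simp only [hχ]
          rw [h4]
          split_ifs <;> simp
        · have h5 : s * (j - 1) = ρ := by
            by_contra h6
            simp only [hχ] at h3
            rw [if_neg h4, if_neg h6] at h3
            norm_num at h3
          rw [← hMb]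
          refine sum_congr rfl fun k _ => ?_
          simp only [hχ]
          have h6 : (s * k = s * j) ↔ (s * (k - 1) = ρ) := by
            rw [← h5]
            constructor
            · intro h; linear_combination h
            · intro h; linear_combination h
          by_cases h7 : s * k = s * j
          · rw [if_pos h7, if_pos (h6.1 h7), one_mul]
          · rw [if_neg h7, if_neg (fun h => h7 (h6.2 h)), zero_mul]
      · exact absurd h3 hj
    rw [sum_congr rfl fun j _ => e1 j, ← sum_mul, h1, one_mul]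
  have h2 : 2 * ((Nat.card H : ℝ) + 1) = (d : ℝ) + 1 := by
    rw [hS1] at hS2
    field_simp at hS2
    linarith
  have h3 : 2 * (Nat.card H + 1) = d + 1 := by exact_mod_cast h2
  clear_value H
  generalize Nat.card H = n at h3 hdvd
  have h4 : n ∣ 1 := by
    have h5 : d = 2 * n + 1 := by omega
    have h6 : n ∣ 2 * n + 1 := by rw [← h5]; exact hdvd
    exact (Nat.dvd_add_right (Dvd.intro_left 2 rfl)).1 h6
  have h5 : n = 1 := Nat.dvd_one.1 h4
  omega

end Q17.SICN
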