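import Pool.Agent.Q17.SICN.Nilp

/-!
# The stabilizer of a line in the normalizer of the Weyl group
-/

set_option autoImplicit false

open Finset

namespace Q17.SICN

open Pool.Agent.Y387.SF Pool.Agent.Y387.RU

theorem card_dvd_of_free {G X : Type*} [Group G] [Finite G] [Finite X] [MulAction G X]
    (hfree : ∀ (g : G) (x : X), g • x = x → g = 1) : Nat.card G ∣ Nat.card X := by
  classical
  have : Fintype G := Fintype.ofFinite G
  have : Fintype X := Fintype.ofFinite X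
  have : Fintype (Quotient (MulAction.orbitRel G X)) := Fintype.ofFinite _
  rw [Nat.card_congr (MulAction.selfEquivSigmaOrbits G X), Nat.card_sigma]
  refine dvd_sum fun ω _ => ?_
  have h1 : Nat.card (MulAction.orbit G (Quotient.out ω)) = Nat.card G := by
    refine Nat.card_congr (Equiv.ofBijective
      (fun g : G => (⟨g • Quotient.out ω, MulAction.mem_orbit _ _⟩ :
        MulAction.orbit G (Quotient.out ω))) ⟨?_, ?_⟩).symm
    · intro g g' hgg
      have h2 : g • Quotient.out ω = g' • Quotient.out ω := congrArg Subtype.val hgg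
      have h3 := hfree (g'⁻¹ * g) (Quotient.out ω) (by rw [mul_smul, h2, inv_smul_smul])
      exact (inv_mul_eq_one.1 h3).symm
    · rintro ⟨_, g, rfl⟩
      exact ⟨g, rfl⟩
  exact h1 ▸ dvd_rfl

variable {V : Type*} [NormedAddCommGroup V] [InnerProductSpace ℂ V] [FiniteDimensional ℂ V]
variable {ι : Type*} {d : ℕ} {x : ι → V}
variable {Z T : V ≃ₗᵢ[ℂ] V} {π σ : Equiv.Perm ι} {ζ : ℂ}

theorem WP.pow_eq [NeZero d] (h : IsEtf d x) (hV : Module.finrank ℂ V = d)
    (w : WP d x Z T π σ ζ) : π ^ d = 1 ∧ σ ^ d = 1 := by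
  have hd : 1 ≤ d := Nat.pos_of_ne_zero (NeZero.ne d)
  obtain ⟨e, ψ, l, m, c⟩ := exists_coord hV w.prim w.comm
  constructor
  · refine perm_eq h hd (ind_pow w.hZ d) Ind.one (c := l ^ d) fun v => ?_
    change (Z ^ d) v = l ^ d • v
    rw [← e.sum_repr' ((Z ^ d) v), ← e.sum_repr' (l ^ d • v)]
    refine sum_congr rfl fun j _ => ?_
    congr 1
    rw [c.inner_Zpow, inner_smul_right, ZMod.natCast_self, zero_mul, AddChar.map_zero_eq_one,
      mul_one]
  · refine perm_eq h hd (ind_pow w.hT d) Ind.one (c := m ^ d) fun v => ?_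
    change (T ^ d) v = m ^ d • v
    rw [← e.sum_repr' ((T ^ d) v), ← e.sum_repr' (m ^ d • v)]
    refine sum_congr rfl fun j _ => ?_
    congr 1
    have h1 := c.inner_Tpow d j v
    rw [ZMod.natCast_self, add_zero] at h1
    rw [h1, inner_smul_right]

theorem pow_val_add [NeZero d] {G : Type*} [Group G] {g : G} (hg : g ^ d = 1) (a b : ZMod d) :
    g ^ (a + b).val = g ^ a.val * g ^ b.val := by
  rw [ZMod.val_add, ← pow_add, ← pow_eq_pow_mod _ hg]

theorem pow_val_cast [NeZero d] {G : Type*} [Group G] {g : G} (hg : g ^ d = 1) (n : ℕ) :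
    g ^ (n : ZMod d).val = g ^ n := by
  rw [ZMod.val_natCast, ← pow_eq_pow_mod _ hg]

/-- the Weyl group as the image of a homomorphism -/
noncomputable def wHom [NeZero d] (hc : π * σ = σ * π) (hπ : π ^ d = 1) (hσ : σ ^ d = 1) :
    Multiplicative (ZMod d × ZMod d) →* Equiv.Perm ι where
  toFun v := π ^ (Multiplicative.toAdd v).1.val * σ ^ (Multiplicative.toAdd v).2.val
  map_one' := by simp
  map_mul' v w := by
    have h1 : Commute (π ^ (Multiplicative.toAdd w).1.val)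
        (σ ^ (Multiplicative.toAdd v).2.val) := (show Commute π σ from hc).pow_pow _ _
    rw [toAdd_mul, Prod.fst_add, Prod.snd_add, pow_val_add hπ, pow_val_add hσ]
    rw [mul_assoc, ← mul_assoc (π ^ (Multiplicative.toAdd w).1.val), h1.eq]
    simp only [mul_assoc]

/-- `ρ` lies in the group generated by `π` and `σ` -/
def InW (π σ ρ : Equiv.Perm ι) : Prop := ∃ a b : ℕ, ρ = π ^ a * σ ^ b

theorem inW_iff [NeZero d] (hc : π * σ = σ * π) (hπ : π ^ d = 1) (hσ : σ ^ d = 1)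
    (ρ : Equiv.Perm ι) : InW π σ ρ ↔ ρ ∈ (wHom hc hπ hσ).range := by
  constructor
  · rintro ⟨a, b, rfl⟩
    refine ⟨Multiplicative.ofAdd ((a : ZMod d), (b : ZMod d)), ?_⟩
    change π ^ (a : ZMod d).val * σ ^ (b : ZMod d).val = _
    rw [pow_val_cast hπ, pow_val_cast hσ]
  · rintro ⟨v, rfl⟩
    exact ⟨_, _, rfl⟩

variable [Fintype ι]

theorem wHom_inj [NeZero d] (h : IsEtf d x) (hcard : Fintype.card ι = d ^ 2)
    (hV : Module.finrank ℂ V = d) (w : WP d x Z T π σ ζ) (i : ι)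
    (hc : π * σ = σ * π) (hπ : π ^ d = 1) (hσ : σ ^ d = 1) :
    Function.Injective (wHom hc hπ hσ) := by
  intro v v' hvv
  have h1 := (w.bij h hcard hV i).1 (a₁ := Multiplicative.toAdd v) (a₂ := Multiplicative.toAdd v')
    (congrArg (fun ρ : Equiv.Perm ι => ρ i) hvv)
  exact h1

/-- **the stabilizer of a line in the Clifford group** -/
theorem stab_dvd (h : IsEtf d x) (hd : 1 ≤ d) (hcard : Fintype.card ι = d ^ 2)
    (hV : Module.finrank ℂ V = d) (hd3 : d ≠ 3) (w : WP d x Z T π σ ζ) (i : ι)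
    (C : Subgroup (Equiv.Perm ι)) (hC : ∀ ρ ∈ C, ∃ U : V ≃ₗᵢ[ℂ] V, Ind x U ρ)
    (hi : ∀ ρ ∈ C, ρ i = i)
    (hn : ∀ ρ ∈ C, InW π σ (ρ * π * ρ⁻¹) ∧ InW π σ (ρ * σ * ρ⁻¹)) :
    Nat.card C ∣ Nat.card {v : ZMod d × ZMod d // addOrderOf v = d} := by
  classical
  have : NeZero d := ⟨by omega⟩
  have hc := w.commute h hd
  obtain ⟨hπ, hσ⟩ := w.pow_eq h hV
  have hinj := wHom_inj h hcard hV w i hc hπ hσ
  set φ := wHom hc hπ hσ with hφ
  have hW : ∀ ρ, InW π σ ρ ↔ ρ ∈ φ.range := inW_iff hc hπ hσ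
  have hconj : ∀ ρ ∈ C, ∀ g ∈ φ.range, ρ * g * ρ⁻¹ ∈ φ.range := by
    intro ρ hρ g hg
    obtain ⟨a, b, rfl⟩ := (hW g).2 hg
    obtain ⟨h1, h2⟩ := hn ρ hρ
    rw [hW] at h1 h2
    have h3 : ρ * (π ^ a * σ ^ b) * ρ⁻¹ = (ρ * π * ρ⁻¹) ^ a * (ρ * σ * ρ⁻¹) ^ b := by
      rw [conj_pow, conj_pow]
      group
    rw [h3]
    exact mul_mem (pow_mem h1 a) (pow_mem h2 b)
  -- the Weyl group is abelian and transitive
  have hWab : ∀ g ∈ φ.range, ∀ g' ∈ φ.range, g * g' = g' * g := by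
    rintro _ ⟨v, rfl⟩ _ ⟨v', rfl⟩
    rw [← map_mul, ← map_mul, mul_comm]
  have hWind : ∀ g ∈ φ.range, ∃ U : V ≃ₗᵢ[ℂ] V, Ind x U g := by
    intro g hg
    obtain ⟨a, b, rfl⟩ := (hW g).2 hg
    exact ⟨_, (ind_pow w.hZ a).mul (ind_pow w.hT b)⟩
  have hWtr : ∀ i j, ∃ g ∈ φ.range, g i = j := by
    intro i j
    obtain ⟨v, hv⟩ := (w.bij h hcard hV i).2 j
    exact ⟨_, ⟨Multiplicative.ofAdd v, rfl⟩, hv⟩
  -- the elements of order `d`
  let X : Type _ := {g : Equiv.Perm ι // g ∈ φ.range ∧ orderOf g = d}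
  have hX : Nat.card X = Nat.card {v : ZMod d × ZMod d // addOrderOf v = d} := by
    refine Nat.card_congr (Equiv.ofBijective (fun v : {v : ZMod d × ZMod d // addOrderOf v = d} =>
      (⟨φ (Multiplicative.ofAdd v.1), ⟨_, rfl⟩, ?_⟩ : X)) ⟨?_, ?_⟩).symm
    · rw [orderOf_injective φ hinj, orderOf_ofAdd_eq_addOrderOf]
      exact v.2
    · intro v v' hvv
      have h1 : φ (Multiplicative.ofAdd v.1) = φ (Multiplicative.ofAdd v'.1) :=
        congrArg Subtype.val hvv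
      exact Subtype.ext (hinj h1)
    · rintro ⟨_, ⟨v, rfl⟩, hv⟩
      rw [orderOf_injective φ hinj] at hv
      exact ⟨⟨Multiplicative.toAdd v,
        (orderOf_ofAdd_eq_addOrderOf (Multiplicative.toAdd v)).symm.trans hv⟩, rfl⟩
  rw [← hX]
  let act : MulAction C X :=
    { smul := fun ρ g => ⟨ρ.1 * g.1 * ρ.1⁻¹, hconj _ ρ.2 _ g.2.1, by
        have h1 : orderOf (MulAut.conj ρ.1 g.1) = orderOf g.1 :=
          orderOf_injective (MulAut.conj ρ.1).toMonoidHom (MulAut.conj ρ.1).injective g.1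
        rw [MulAut.conj_apply] at h1
        rw [h1]
        exact g.2.2⟩
      one_smul := fun g => Subtype.ext (by
        change (1 : Equiv.Perm ι) * g.1 * (1 : Equiv.Perm ι)⁻¹ = g.1
        simp)
      mul_smul := fun ρ ρ' g => Subtype.ext (by
        change (ρ.1 * ρ'.1) * g.1 * (ρ.1 * ρ'.1)⁻¹ = ρ.1 * (ρ'.1 * g.1 * ρ'.1⁻¹) * ρ.1⁻¹
        group) }
  refine card_dvd_of_free (G := C) (X := X) ?_
  rintro ⟨ρ, hρ⟩ ⟨g, hg, hgd⟩ hfix
  have h1 : ρ * g * ρ⁻¹ = g := congrArg Subtype.val hfix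
  have h2 : g * ρ = ρ * g := by
    rw [mul_inv_eq_iff_eq_mul] at h1
    exact h1.symm
  obtain ⟨A, hA⟩ := hWind g hg
  obtain ⟨B, hB⟩ := hC ρ hρ
  obtain ⟨t, -, ht⟩ := scalar_of_commute h hd hcard hV hA hB h2
  obtain ⟨T', σ', ζ', hσ', w'⟩ := exists_wp h hd hcard hV φ.range hWind hWtr i hA
    (fun g' hg' => hWab g hg g' hg') hgd
  obtain ⟨a, b, -, -, hab⟩ := w'.centralizer h hd hcard hV hd3 i hB ht
  have h3 : ρ ∈ φ.range := by
    rw [hab]
    exact mul_mem (pow_mem hg a) (pow_mem hσ' b)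
  obtain ⟨v, hv⟩ := h3
  have h4 : (fun ab : ZMod d × ZMod d => (π ^ ab.1.val * σ ^ ab.2.val) i)
      (Multiplicative.toAdd v) = (fun ab : ZMod d × ZMod d => (π ^ ab.1.val * σ ^ ab.2.val) i) 0 := by
    have h5 : (π ^ (Multiplicative.toAdd v).1.val * σ ^ (Multiplicative.toAdd v).2.val) i = i := by
      have h6 := congrArg (fun q : Equiv.Perm ι => q i) hv
      exact h6.trans (hi ρ hρ)
    beta_reduce
    rw [h5]
    simp
  have h5 := (w.bij h hcard hV i).1 h4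
  have h6 : v = 1 := h5
  apply Subtype.ext
  change ρ = 1
  rw [← hv, h6, map_one]

end Q17.SICN
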