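import Pool.Agent.Q17.SICN.Weyl

/-!
# Symmetries commuting with the clock
-/

set_option autoImplicit false

open Finset

namespace Q17.SICN

open Pool.Agent.Y387.SF Pool.Agent.Y387.RU

variable {V : Type*} [NormedAddCommGroup V] [InnerProductSpace ℂ V] [FiniteDimensional ℂ V]
variable {ι : Type*} {d : ℕ} {x : ι → V} [NeZero d]
variable {Z T : V ≃ₗᵢ[ℂ] V} {e : OrthonormalBasis (ZMod d) ℂ V} {ψ : AddChar (ZMod d) ℂ} {l m : ℂ}

theorem char_inj (hψ : ψ.IsPrimitive) {a : ZMod d} (h : ψ a = 1) : a = 0 :=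
  (hψ.zmod_char_eq_one_iff d a).1 h

theorem ne_zero_of_norm_one {c : ℂ} (h : ‖c‖ = 1) : c ≠ 0 := by
  rintro rfl
  simp at h

omit [FiniteDimensional ℂ V] in
/-- an operator commuting with the clock is diagonal -/
theorem diag_of_comm (c : Coord Z T e ψ l m) {D : V ≃ₗᵢ[ℂ] V} (hD : ∀ v, Z (D v) = D (Z v)) :
    ∃ γ : ZMod d → ℂ, (∀ j, ‖γ j‖ = 1) ∧ ∀ j v, inner ℂ (e j) (D v) = γ j * inner ℂ (e j) v := by
  have hl0 := ne_zero_of_norm_one c.hl
  have h0 : ∀ k j, k ≠ j → inner ℂ (e k) (D (e j)) = 0 := by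
    intro k j hkj
    have h1 := congrArg (fun w => inner ℂ (e k) w) (hD (e j))
    beta_reduce at h1
    rw [c.inner_Z, c.hZ, map_smul, inner_smul_right] at h1
    have h2 : (ψ k - ψ j) * inner ℂ (e k) (D (e j)) = 0 := by
      have h3 : l * ((ψ k - ψ j) * inner ℂ (e k) (D (e j))) = 0 := by linear_combination h1
      exact (mul_eq_zero.1 h3).resolve_left hl0
    rcases mul_eq_zero.1 h2 with h3 | h3
    · exfalso
      apply hkj
      have h4 : ψ (k - j) = 1 := by
        rw [AddChar.map_sub_eq_div, sub_eq_zero.1 h3, div_self]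
        exact ne_zero_of_norm_one (char_norm ψ j)
      exact sub_eq_zero.1 (char_inj c.prim h4)
    · exact h3
  have h1 : ∀ j v, inner ℂ (e j) (D v) = inner ℂ (e j) (D (e j)) * inner ℂ (e j) v := by
    intro j v
    have h2 : D v = ∑ k, inner ℂ (e k) v • D (e k) := by
      conv_lhs => rw [← e.sum_repr' v]
      rw [map_sum]
      exact sum_congr rfl fun k _ => map_smul _ _ _
    rw [h2, inner_sum, sum_eq_single j]
    · rw [inner_smul_right, mul_comm]
    · intro k _ hk
      rw [inner_smul_right, h0 j k (Ne.symm hk), mul_zero]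
    · intro h3
      exact absurd (mem_univ _) h3
  refine ⟨fun j => inner ℂ (e j) (D (e j)), fun j => ?_, h1⟩
  have h2 : D (e j) = inner ℂ (e j) (D (e j)) • e j := by
    conv_lhs => rw [← e.sum_repr' (D (e j))]
    rw [sum_eq_single j]
    · intro k _ hk
      rw [h0 k j hk, zero_smul]
    · intro h3
      exact absurd (mem_univ _) h3
  have h3 := congrArg norm h2
  rw [D.norm_map, norm_smul, e.norm_eq_one, mul_one] at h3
  exact h3.symm

variable [Fintype ι]

omit [FiniteDimensional ℂ V] in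
/-- on the support of a line, a diagonal symmetry is a multiple of a power of the clock -/
theorem local_char (h : IsEtf d x) (hcard : Fintype.card ι = d ^ 2) (c : Coord Z T e ψ l m)
    {π σ δ : Equiv.Perm ι} (hZ : Ind x Z π) (hT : Ind x T σ) {D : V ≃ₗᵢ[ℂ] V} (hD : Ind x D δ)
    {γ : ZMod d → ℂ} (hγ1 : ∀ j, ‖γ j‖ = 1)
    (hγ : ∀ j v, inner ℂ (e j) (D v) = γ j * inner ℂ (e j) v) (i : ι) :
    ∃ (a : ZMod d) (κ : ℂ), ∀ j, inner ℂ (e j) (x i) ≠ 0 → γ j = κ * ψ (a * j) := by
  obtain ⟨a, b, hab⟩ := weyl_trans h c hZ hT i (δ i)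
  obtain ⟨c1, hc1⟩ := hD i
  obtain ⟨c2, hc2⟩ := ((ind_pow hZ a.val).mul (ind_pow hT b.val)) i
  rw [hab] at hc2
  have hn2 := ne_zero_of_norm_one (ind_norm h hc2)
  have h1 : ∀ j, γ j * inner ℂ (e j) (x i) =
      (c1 / c2 * l ^ a.val * m ^ b.val) * (ψ (a * j) * inner ℂ (e (j - b)) (x i)) := by
    intro j
    rw [← hγ, hc1]
    have h2 := c.inner_word a b j (x i)
    rw [hc2] at h2
    rw [inner_smul_right] at h2 ⊢
    have h3 : inner ℂ (e j) (x (δ i)) = c2⁻¹ * (l ^ a.val * m ^ b.val *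
        (ψ (a * j) * inner ℂ (e (j - b)) (x i))) := by
      rw [← h2, inv_mul_cancel_left₀ hn2]
    rw [h3]
    ring
  have hK : ‖c1 / c2 * l ^ a.val * m ^ b.val‖ = 1 := by
    rw [norm_mul, norm_mul, norm_div, norm_pow, norm_pow, c.hl, c.hm, ind_norm h hc1,
      ind_norm h hc2]
    simp
  have h2 : ∀ j, wt e x i j = wt e x i (j - b) := by
    intro j
    have h3 := congrArg norm (h1 j)
    rw [norm_mul, norm_mul (c1 / c2 * l ^ a.val * m ^ b.val), hγ1, hK, one_mul, one_mul, norm_mul,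
      char_norm, one_mul] at h3
    rw [wt, wt, h3]
  have hb : b = 0 := by
    by_contra hb
    obtain ⟨-, h3⟩ := wt_autocorr h hcard c hZ hT i
    have h4 := h3 b
    have h5 := h3 0
    rw [if_neg hb] at h4
    rw [if_pos rfl] at h5
    have h6 : ∀ j, wt e x i j * wt e x i (j + b) = wt e x i j * wt e x i (j + 0) := by
      intro j
      rw [h2 (j + b), add_sub_cancel_right, add_zero]
    rw [sum_congr rfl fun j _ => h6 j, h5] at h4
    have hd : (d : ℝ) + 1 ≠ 0 := by positivity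
    field_simp at h4
    norm_num at h4
  refine ⟨a, c1 / c2 * l ^ a.val * m ^ b.val, fun j hj => ?_⟩
  have h3 := h1 j
  rw [hb, sub_zero, ← hb] at h3
  exact mul_right_cancel₀ hj (by rw [h3]; ring)

omit [FiniteDimensional ℂ V] in
/-- a diagonal symmetry is a power of the clock -/
theorem diag_sym (h : IsEtf d x) (hcard : Fintype.card ι = d ^ 2) (hd3 : d ≠ 3)
    (c : Coord Z T e ψ l m) {π σ δ : Equiv.Perm ι} (hZ : Ind x Z π) (hT : Ind x T σ)
    {D : V ≃ₗᵢ[ℂ] V} (hD : Ind x D δ) (hcomm : ∀ v, Z (D v) = D (Z v)) (i : ι) :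
    ∃ a : ZMod d, δ = π ^ a.val := by
  classical
  have hd0 : (0 : ℝ) < (d : ℝ) + 1 := by positivity
  obtain ⟨γ, hγ1, hγ⟩ := diag_of_comm c hcomm
  have hloc := local_char h hcard c hZ hT hD hγ1 hγ
  -- nonvanishing coordinates along the shift
  have hshift : ∀ i j, inner ℂ (e j) (x i) ≠ 0 → inner ℂ (e (j + 1)) (x (σ i)) ≠ 0 := by
    intro i j hj
    obtain ⟨c1, hc1⟩ := hT i
    have h1 := c.inner_T j (x i)
    rw [hc1, inner_smul_right] at h1
    intro h2
    rw [h2, mul_zero] at h1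
    exact mul_ne_zero (ne_zero_of_norm_one c.hm) hj h1.symm
  have hstep : ∀ (i : ι) (a : ZMod d) (κ : ℂ),
      (∀ j, inner ℂ (e j) (x i) ≠ 0 → γ j = κ * ψ (a * j)) →
      ∀ j, inner ℂ (e j) (x (σ i)) ≠ 0 → γ j = κ * ψ (a * j) := by
    intro i a κ hi
    obtain ⟨a', κ', hi'⟩ := hloc (σ i)
    obtain ⟨h1, h2⟩ := wt_autocorr h hcard c hZ hT i
    have hwt : ∀ j, wt e x i j ≠ 0 → inner ℂ (e j) (x i) ≠ 0 := by
      intro j hj h3
      apply hj
      rw [wt, h3]
      simp
    have hex : ∃ j, wt e x i j ≠ 0 ∧ wt e x i (j + 1) ≠ 0 := by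
      by_contra hcon
      push Not at hcon
      have h3 := h2 1
      rw [sum_eq_zero fun j _ => ?_] at h3
      · have h4 : (0 : ℝ) < (1 + if (1 : ZMod d) = 0 then 1 else 0) / ((d : ℝ) + 1) := by
          apply div_pos _ hd0
          split_ifs <;> norm_num
        exact h4.ne h3
      · by_cases h4 : wt e x i j = 0
        · rw [h4, zero_mul]
        · rw [hcon j h4, mul_zero]
    have hrel : ∀ j, wt e x i j ≠ 0 → wt e x i (j + 1) ≠ 0 →
        κ * ψ (a * (j + 1)) = κ' * ψ (a' * (j + 1)) := by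
      intro j hj hj1
      rw [← hi (j + 1) (hwt _ hj1), ← hi' (j + 1) (hshift i j (hwt _ hj))]
    have hκ0 : ∀ j, wt e x i (j + 1) ≠ 0 → κ ≠ 0 := by
      intro j hj h3
      have h4 := hi (j + 1) (hwt _ hj)
      rw [h3, zero_mul] at h4
      exact ne_zero_of_norm_one (hγ1 (j + 1)) h4
    obtain ⟨j₀, hj₀, hj₁⟩ := hex
    have hκ := hκ0 j₀ hj₁
    have hrat : ∀ j, wt e x i j ≠ 0 → wt e x i (j + 1) ≠ 0 →
        ψ ((a - a') * (j + 1)) = κ' / κ := by
      intro j hj hj1
      have h3 := hrel j hj hj1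
      have h4 := ne_zero_of_norm_one (char_norm ψ (a' * (j + 1)))
      rw [sub_mul, AddChar.map_sub_eq_div]
      rw [div_eq_div_iff h4 hκ]
      linear_combination h3
    have hs : a - a' = 0 := by
      by_contra hs
      apply hd3
      refine comb (wt e x i) h1 h2 (a - a') ((a - a') * j₀) hs fun j hj hj1 => ?_
      have h3 := hrat j hj hj1
      have h4 := hrat j₀ hj₀ hj₁
      have h5 : ψ ((a - a') * (j + 1) - (a - a') * (j₀ + 1)) = 1 := by
        rw [AddChar.map_sub_eq_div, h3, h4, div_self]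
        rw [← h4]
        exact ne_zero_of_norm_one (char_norm ψ _)
      have h6 := char_inj c.prim h5
      linear_combination h6
    have haa : a = a' := sub_eq_zero.1 hs
    have hκκ : κ = κ' := by
      have h3 := hrat j₀ hj₀ hj₁
      rw [hs, zero_mul, AddChar.map_zero_eq_one, eq_div_iff hκ, one_mul] at h3
      exact h3
    rw [haa, hκκ]
    exact hi'
  obtain ⟨a, κ, hi⟩ := hloc i
  have hall : ∀ n : ℕ, ∀ j, inner ℂ (e j) (x ((σ ^ n) i)) ≠ 0 → γ j = κ * ψ (a * j) := by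
    intro n
    induction n with
    | zero => exact hi
    | succ n ih =>
      rw [pow_succ']
      exact hstep _ a κ ih
  have hex : ∃ j, inner ℂ (e j) (x i) ≠ 0 := by
    by_contra hcon
    push Not at hcon
    have h1 := e.sum_sq_norm_inner_right (x i)
    rw [sum_eq_zero (fun j _ => by rw [hcon j]; simp), h.nrm] at h1
    norm_num at h1
  obtain ⟨j₀, hj₀⟩ := hex
  have hsh : ∀ n : ℕ, inner ℂ (e (j₀ + n)) (x ((σ ^ n) i)) ≠ 0 := by
    intro n
    induction n with
    | zero => simpa using hj₀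
    | succ n ih =>
      rw [pow_succ', Nat.cast_succ, ← add_assoc]
      exact hshift _ _ ih
  have hγall : ∀ j, γ j = κ * ψ (a * j) := by
    intro j
    have h1 := hall (j - j₀).val j
    apply h1
    have h2 := hsh (j - j₀).val
    rwa [ZMod.natCast_zmod_val, add_sub_cancel] at h2
  refine ⟨a, perm_eq h (Nat.pos_of_ne_zero (NeZero.ne d)) hD (ind_pow hZ a.val)
    (c := κ / l ^ a.val) fun v => ?_⟩
  have hl0 : l ^ a.val ≠ 0 := pow_ne_zero _ (ne_zero_of_norm_one c.hl)
  rw [← e.sum_repr' (D v), ← e.sum_repr' ((κ / l ^ a.val) • (Z ^ a.val) v)]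
  refine sum_congr rfl fun j _ => ?_
  congr 1
  rw [hγ, inner_smul_right, c.inner_Zpow, ZMod.natCast_zmod_val, hγall]
  field_simp

end Q17.SICN
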