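import Pool.Agent.Q17.SICN.Cent

/-!
# Central elements of transitive nilpotent groups
-/

set_option autoImplicit false

open Finset

namespace Q17.SICN

open Pool.Agent.Y387.SF Pool.Agent.Y387.RU

theorem exists_central_prime {G : Type*} [Group G] [Finite G] [Group.IsNilpotent G] {p : ℕ}
    (hp : p.Prime) (hdvd : p ∣ Nat.card G) : ∃ g ∈ Subgroup.center G, orderOf g = p := by
  classical
  have : Fact p.Prime := ⟨hp⟩
  obtain ⟨P⟩ : Nonempty (Sylow p G) := inferInstance
  have hPn : (P : Subgroup G).Normal := inferInstance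
  have hPne : (P : Subgroup G) ≠ ⊥ := P.ne_bot_of_dvd_card hdvd
  obtain ⟨g, hgP, hg1, hgc⟩ := exists_central (P : Subgroup G) hPne
  obtain ⟨k, hk⟩ := P.isPGroup' ⟨g, hgP⟩
  have hk' : g ^ (p ^ k) = 1 := congrArg (fun t : P => (t : G)) hk
  obtain ⟨s, hs, hs'⟩ := (Nat.dvd_prime_pow hp).1 (orderOf_dvd_of_pow_eq_one hk')
  have hs0 : s ≠ 0 := by
    rintro rfl
    rw [pow_zero, orderOf_eq_one_iff] at hs'
    exact hg1 hs'
  refine ⟨g ^ (orderOf g / p), ?_, ?_⟩
  · exact pow_mem (Subgroup.mem_center_iff.2 fun h => (hgc h).symm) _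
  · apply orderOf_pow_orderOf_div (by rw [hs']; exact (pow_pos hp.pos _).ne')
    rw [hs']
    exact dvd_pow_self p hs0

theorem exists_central_squarefree {G : Type*} [Group G] [Finite G] [Group.IsNilpotent G]
    (s : Finset ℕ) (hs : ∀ p ∈ s, p.Prime) (hdvd : ∀ p ∈ s, p ∣ Nat.card G) :
    ∃ g ∈ Subgroup.center G, orderOf g = ∏ p ∈ s, p := by
  classical
  induction s using Finset.induction_on with
  | empty => exact ⟨1, one_mem _, by simp⟩
  | insert a s ha ih =>
    obtain ⟨g, hg, hgo⟩ := ih (fun p hp => hs p (mem_insert_of_mem hp))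
      (fun p hp => hdvd p (mem_insert_of_mem hp))
    obtain ⟨g', hg', hgo'⟩ := exists_central_prime (hs a (mem_insert_self _ _))
      (hdvd a (mem_insert_self _ _))
    refine ⟨g' * g, mul_mem hg' hg, ?_⟩
    have hcop : Nat.Coprime a (∏ p ∈ s, p) := by
      apply Nat.Coprime.prod_right
      intro p hp
      rw [Nat.coprime_primes (hs a (mem_insert_self _ _)) (hs p (mem_insert_of_mem hp))]
      rintro rfl
      exact ha hp
    have hcomm : Commute g' g := (Subgroup.mem_center_iff.1 hg g')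
    rw [hcomm.orderOf_mul_eq_mul_orderOf_of_coprime (by rw [hgo, hgo']; exact hcop), hgo, hgo',
      prod_insert ha]

end Q17.SICN
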