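import Pool.Agent.Y387.SF.Svn

/-!
# Pairs of unitaries commuting up to a primitive root of unity of order the dimension
-/

set_option autoImplicit false

open Finset

namespace Q17.SICN

open Pool.Agent.Y387.SF

variable {V : Type*} [NormedAddCommGroup V] [InnerProductSpace ℂ V] [FiniteDimensional ℂ V]

theorem svn {d : ℕ} [NeZero d] (hV : Module.finrank ℂ V = d) (A B : V ≃ₗᵢ[ℂ] V) {ζ : ℂ}
    (hprim : IsPrimitiveRoot ζ d) (hAB : ∀ v, A (B v) = ζ • B (A v)) :
    ∃ (e : OrthonormalBasis (ZMod d) ℂ V) (l m : ℂ), ‖l‖ = 1 ∧ ‖m‖ = 1 ∧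
      (∀ j, A (e j) = (l * ζ ^ j.val) • e j) ∧ ∀ j, B (e j) = m • e (j + 1) := by
  have hd0 : 0 < d := Nat.pos_of_ne_zero (NeZero.ne d)
  have hζp : ζ ^ d = 1 := hprim.pow_eq_one
  have hζn : ‖ζ‖ = 1 := hprim.norm'_eq_one hd0.ne'
  have hnt : Nontrivial V := by
    apply Module.nontrivial_of_finrank_pos (R := ℂ)
    rw [hV]
    exact hd0
  obtain ⟨l, hl⟩ := Module.End.exists_eigenvalue ((A.toLinearEquiv : V →ₗ[ℂ] V) : Module.End ℂ V)
  obtain ⟨v, hv⟩ := hl.exists_hasEigenvector
  have hv0 : v ≠ 0 := hv.2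
  have hAv : A v = l • v := hv.apply_eq_smul
  have hnv : ‖v‖ ≠ 0 := norm_ne_zero_iff.2 hv0
  set w : V := ((‖v‖ : ℂ)⁻¹) • v with hw
  have hwn : ‖w‖ = 1 := by
    rw [hw, norm_smul, norm_inv, Complex.norm_real, norm_norm, inv_mul_cancel₀ hnv]
  have hAw : A w = l • w := by
    rw [hw, map_smul, hAv, smul_comm]
  have hln : ‖l‖ = 1 := by
    have h1 := congrArg norm hAw
    rw [A.norm_map, norm_smul l w, hwn, mul_one] at h1
    exact h1.symm
  set u : ℕ → V := fun n => (B ^ n) w with hu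
  have hu0 : u 0 = w := rfl
  have hus : ∀ n, u (n + 1) = B (u n) := by
    intro n
    change (B ^ (n + 1)) w = B ((B ^ n) w)
    rw [pow_succ']
    rfl
  have hun : ∀ n, ‖u n‖ = 1 := by
    intro n
    change ‖(B ^ n) w‖ = 1
    rw [LinearIsometryEquiv.norm_map, hwn]
  have hAu : ∀ n, A (u n) = (l * ζ ^ n) • u n := by
    intro n
    induction n with
    | zero => rw [hu0, hAw, pow_zero, mul_one]
    | succ n ih =>
      rw [hus, hAB, ih, map_smul, smul_smul]
      congr 1
      ring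
  have hl0 : l ≠ 0 := by
    rintro rfl
    simp at hln
  have hne : ∀ i j : ZMod d, i ≠ j → l * ζ ^ i.val ≠ l * ζ ^ j.val := by
    intro i j hij h1
    apply hij
    have h2 := mul_left_cancel₀ hl0 h1
    exact ZMod.val_injective d (hprim.pow_inj (ZMod.val_lt i) (ZMod.val_lt j) h2)
  have hln' : ∀ n : ℕ, ‖l * ζ ^ n‖ = 1 := by
    intro n
    rw [norm_mul, norm_pow, hln, hζn, one_pow, one_mul]
  -- orthonormal families
  have horth : ∀ f : ZMod d → V, (∀ j, ‖f j‖ = 1) → (∀ j, A (f j) = (l * ζ ^ j.val) • f j) →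
      Orthonormal ℂ f := by
    intro f hf1 hf2
    refine ⟨hf1, fun i j hij => ?_⟩
    exact orth_of (hln' _) (hne i j hij) (hf2 i) (hf2 j)
  have hspan : ∀ f : ZMod d → V, Orthonormal ℂ f →
      ⊤ ≤ Submodule.span ℂ (Set.range f) := by
    intro f hf
    rw [hf.linearIndependent.span_eq_top_of_card_eq_finrank']
    rw [ZMod.card, hV]
  have ho1 := horth (fun j => u j.val) (fun j => hun _) (fun j => hAu _)
  set e₀ := OrthonormalBasis.mk ho1 (hspan _ ho1) with he₀
  have he₀a : ∀ j, e₀ j = u j.val := by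
    intro j
    rw [he₀, OrthonormalBasis.coe_mk]
  -- the `d`-th power of `B`
  have hBp : u d = inner ℂ w (u d) • w := by
    have h1 := e₀.sum_repr' (u d)
    rw [Finset.sum_eq_single (0 : ZMod d)] at h1
    · rw [he₀a, ZMod.val_zero, hu0] at h1
      exact h1.symm
    · intro j _ hj
      have h2 : inner ℂ (e₀ j) (u d) = 0 := by
        rw [he₀a]
        apply orth_of (hln' _) _ (hAu j.val) (hAu d)
        have h3 := hne j 0 hj
        rwa [ZMod.val_zero, pow_zero, ← hζp] at h3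
      rw [h2, zero_smul]
    · intro h0
      exact absurd (Finset.mem_univ _) h0
  set ν := inner ℂ w (u d) with hν
  have hνn : ‖ν‖ = 1 := by
    have h1 := congrArg norm hBp
    rw [hun, norm_smul, hwn, mul_one] at h1
    exact h1.symm
  obtain ⟨m, hm⟩ := IsAlgClosed.exists_pow_nat_eq ν hd0
  have hmn : ‖m‖ = 1 := by
    have h1 : ‖m‖ ^ d = 1 := by rw [← norm_pow, hm, hνn]
    exact (pow_eq_one_iff_of_nonneg (norm_nonneg _) hd0.ne').1 h1
  have hm0 : m ≠ 0 := by
    rintro rfl
    simp at hmn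
  have ho2 := horth (fun j => (m ^ j.val)⁻¹ • u j.val) (fun j => by
    rw [norm_smul, norm_inv, norm_pow, hmn, one_pow, inv_one, one_mul, hun])
    (fun j => by rw [map_smul, hAu, smul_comm])
  refine ⟨OrthonormalBasis.mk ho2 (hspan _ ho2), l, m, hln, hmn, fun j => ?_, fun j => ?_⟩
  · rw [OrthonormalBasis.coe_mk, map_smul, hAu, smul_comm]
  · rw [OrthonormalBasis.coe_mk, map_smul, ← hus]
    by_cases hj : j.val + 1 < d
    · have h1 : (j + 1).val = j.val + 1 := by
        have h2 : (1 : ZMod d).val = 1 := by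
          rw [ZMod.val_one_eq_one_mod]
          exact Nat.mod_eq_of_lt (by omega)
        rw [ZMod.val_add_of_lt, h2]
        rw [h2]
        exact hj
      rw [h1, smul_smul, pow_succ, mul_inv, mul_comm _ m⁻¹, ← mul_assoc, mul_inv_cancel₀ hm0,
        one_mul]
    · have h1 : j.val + 1 = d := by
        have := ZMod.val_lt j
        omega
      have h2 : j + 1 = 0 := by
        have h3 : ((j.val + 1 : ℕ) : ZMod d) = j + 1 := by
          rw [Nat.cast_add, ZMod.natCast_zmod_val, Nat.cast_one]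
        rw [← h3, h1, CharP.cast_eq_zero]
      rw [h1, hBp, h2, ZMod.val_zero, pow_zero, inv_one, one_smul, hu0, smul_smul, ← hm]
      congr 1
      have h4 : m ^ d = m ^ j.val * m := by
        rw [← pow_succ, h1]
      rw [h4, inv_mul_cancel_left₀ (pow_ne_zero _ hm0)]

end Q17.SICN
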