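import Pool.Agent.Q17.SICN.Svn
import Pool.Agent.Q17.SICN.Char
import Pool.Agent.Q17.SICN.Comb
import Pool.Agent.Y387.RU.Trans

/-!
# Weyl pairs of symmetries
-/

set_option autoImplicit false

open Finset

namespace Q17.SICN

open Pool.Agent.Y387.SF Pool.Agent.Y387.RU

variable {V : Type*} [NormedAddCommGroup V] [InnerProductSpace ℂ V] [FiniteDimensional ℂ V]
variable {ι : Type*} {d : ℕ} {x : ι → V}

omit [FiniteDimensional ℂ V] in
/-- a symmetric which is a multiple of another one -/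
theorem perm_eq (h : IsEtf d x) (hd : 1 ≤ d) {U W : V ≃ₗᵢ[ℂ] V} {π ρ : Equiv.Perm ι}
    (hU : Ind x U π) (hW : Ind x W ρ) {c : ℂ} (hc : ∀ v, U v = c • W v) : π = ρ := by
  ext k
  obtain ⟨a, ha⟩ := hU k
  obtain ⟨b, hb⟩ := hW k
  have ha1 := ind_norm h ha
  have ha0 : a ≠ 0 := by
    rintro rfl
    simp at ha1
  have h3 : x (π k) = (a⁻¹ * (c * b)) • x (ρ k) := by
    rw [mul_smul, mul_smul, ← hb, ← hc, ha, smul_smul, inv_mul_cancel₀ ha0, one_smul]
  exact h.line hd h3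

variable [NeZero d]

/-- coordinates of a Weyl pair -/
structure Coord (Z T : V ≃ₗᵢ[ℂ] V) (e : OrthonormalBasis (ZMod d) ℂ V)
    (ψ : AddChar (ZMod d) ℂ) (l m : ℂ) : Prop where
  prim : ψ.IsPrimitive
  hl : ‖l‖ = 1
  hm : ‖m‖ = 1
  hZ : ∀ j, Z (e j) = (l * ψ j) • e j
  hT : ∀ j, T (e j) = m • e (j + 1)

theorem exists_coord (hV : Module.finrank ℂ V = d) {Z T : V ≃ₗᵢ[ℂ] V} {ζ : ℂ}
    (hprim : IsPrimitiveRoot ζ d) (hZT : ∀ v, Z (T v) = ζ • T (Z v)) :
    ∃ (e : OrthonormalBasis (ZMod d) ℂ V) (ψ : AddChar (ZMod d) ℂ) (l m : ℂ),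
      Coord Z T e ψ l m := by
  obtain ⟨e, l, m, hl, hm, hZ, hT⟩ := svn hV Z T hprim hZT
  refine ⟨e, AddChar.zmodChar d hprim.pow_eq_one, l, m,
    AddChar.zmodChar_primitive_of_primitive_root d hprim, hl, hm, fun j => ?_, hT⟩
  rw [AddChar.zmodChar_apply]
  exact hZ j

variable {Z T : V ≃ₗᵢ[ℂ] V} {e : OrthonormalBasis (ZMod d) ℂ V} {ψ : AddChar (ZMod d) ℂ} {l m : ℂ}

omit [FiniteDimensional ℂ V] in
theorem Coord.inner_Z (c : Coord Z T e ψ l m) (j : ZMod d) (v : V) :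
    inner ℂ (e j) (Z v) = l * ψ j * inner ℂ (e j) v := by
  have h1 := Z.inner_map_map (e j) v
  rw [c.hZ, inner_smul_left] at h1
  have h2 : (l * ψ j) * (starRingEnd ℂ) (l * ψ j) = 1 := by
    rw [Complex.mul_conj, Complex.normSq_eq_norm_sq, norm_mul, c.hl, char_norm]
    simp
  linear_combination (l * ψ j) * h1 - inner ℂ (e j) (Z v) * h2

omit [FiniteDimensional ℂ V] in
theorem Coord.inner_T (c : Coord Z T e ψ l m) (j : ZMod d) (v : V) :
    inner ℂ (e (j + 1)) (T v) = m * inner ℂ (e j) v := by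
  have h1 := T.inner_map_map (e j) v
  rw [c.hT, inner_smul_left] at h1
  have h2 : m * (starRingEnd ℂ) m = 1 := by
    rw [Complex.mul_conj, Complex.normSq_eq_norm_sq, c.hm]
    simp
  linear_combination m * h1 - inner ℂ (e (j + 1)) (T v) * h2

omit [FiniteDimensional ℂ V] in
theorem Coord.inner_Zpow (c : Coord Z T e ψ l m) (n : ℕ) (j : ZMod d) (v : V) :
    inner ℂ (e j) ((Z ^ n) v) = l ^ n * ψ (n * j) * inner ℂ (e j) v := by
  induction n with
  | zero => simp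
  | succ n ih =>
    rw [pow_succ']
    change inner ℂ (e j) (Z ((Z ^ n) v)) = _
    rw [c.inner_Z, ih, Nat.cast_succ, add_mul, one_mul, AddChar.map_add_eq_mul]
    ring

omit [FiniteDimensional ℂ V] in
theorem Coord.inner_Tpow (c : Coord Z T e ψ l m) (n : ℕ) (j : ZMod d) (v : V) :
    inner ℂ (e (j + n)) ((T ^ n) v) = m ^ n * inner ℂ (e j) v := by
  induction n with
  | zero => simp
  | succ n ih =>
    rw [pow_succ']
    change inner ℂ (e _) (T ((T ^ n) v)) = _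
    rw [Nat.cast_succ, ← add_assoc, c.inner_T, ih]
    ring

omit [FiniteDimensional ℂ V] in
theorem Coord.inner_word (c : Coord Z T e ψ l m) (a b : ZMod d) (j : ZMod d) (v : V) :
    inner ℂ (e j) ((Z ^ a.val * T ^ b.val) v) =
      l ^ a.val * m ^ b.val * (ψ (a * j) * inner ℂ (e (j - b)) v) := by
  change inner ℂ (e j) ((Z ^ a.val) ((T ^ b.val) v)) = _
  rw [c.inner_Zpow, ZMod.natCast_zmod_val]
  have h1 := c.inner_Tpow b.val (j - b) v
  rw [ZMod.natCast_zmod_val, sub_add_cancel] at h1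
  rw [h1]
  ring

omit [FiniteDimensional ℂ V] in
theorem Coord.frame (c : Coord Z T e ψ l m) (v w : V) :
    ∑ b : ZMod d, ∑ a : ZMod d, ‖inner ℂ v ((Z ^ a.val * T ^ b.val) w)‖ ^ 2 =
      d * ‖v‖ ^ 2 * ‖w‖ ^ 2 := by
  have h1 : ∀ a b : ZMod d, ‖inner ℂ v ((Z ^ a.val * T ^ b.val) w)‖ =
      ‖∑ j, (inner ℂ v (e j) * inner ℂ (e (j - b)) w) * ψ (a * j)‖ := by
    intro a b
    rw [← e.sum_inner_mul_inner v ((Z ^ a.val * T ^ b.val) w)]
    have h2 : ∑ i, inner ℂ v (e i) * inner ℂ (e i) ((Z ^ a.val * T ^ b.val) w) =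
        (l ^ a.val * m ^ b.val) *
          ∑ j, (inner ℂ v (e j) * inner ℂ (e (j - b)) w) * ψ (a * j) := by
      rw [mul_sum]
      refine sum_congr rfl fun j _ => ?_
      rw [c.inner_word]
      ring
    rw [h2, norm_mul, norm_mul, norm_pow, norm_pow, c.hl, c.hm, one_pow, one_pow, one_mul, one_mul]
  simp_rw [h1]
  rw [sum_congr rfl fun b _ => parseval c.prim
    (fun j => inner ℂ v (e j) * inner ℂ (e (j - b)) w)]
  rw [← mul_sum, sum_comm]
  have h3 : ∀ j : ZMod d, ∑ b : ZMod d, ‖inner ℂ v (e j) * inner ℂ (e (j - b)) w‖ ^ 2 =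
      ‖inner ℂ v (e j)‖ ^ 2 * ‖w‖ ^ 2 := by
    intro j
    rw [← e.sum_sq_norm_inner_right w, mul_sum,
      ← Equiv.sum_comp (Equiv.subLeft j) (fun i => ‖inner ℂ v (e j)‖ ^ 2 * ‖inner ℂ (e i) w‖ ^ 2)]
    refine sum_congr rfl fun b _ => ?_
    rw [norm_mul, mul_pow]
    rfl
  rw [sum_congr rfl fun j _ => h3 j, ← sum_mul, e.sum_sq_norm_inner_left v]
  ring

omit [FiniteDimensional ℂ V] [NeZero d] in
theorem sq_norm_of_eq (h : IsEtf d x) {U : V ≃ₗᵢ[ℂ] V} {ρ : Equiv.Perm ι} (hU : Ind x U ρ)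
    {i j : ι} (hij : ρ i = j) : ‖inner ℂ (x j) (U (x i))‖ ^ 2 = 1 := by
  obtain ⟨c, hc⟩ := hU i
  rw [hc, inner_smul_right, norm_mul, ind_norm h hc, hij, h.inner_self]
  simp

omit [FiniteDimensional ℂ V] [NeZero d] in
theorem sq_norm_of_ne (h : IsEtf d x) {U : V ≃ₗᵢ[ℂ] V} {ρ : Equiv.Perm ι} (hU : Ind x U ρ)
    {i j : ι} (hij : ρ i ≠ j) : ‖inner ℂ (x j) (U (x i))‖ ^ 2 = 1 / ((d : ℝ) + 1) := by
  obtain ⟨c, hc⟩ := hU i
  rw [hc, inner_smul_right, norm_mul, ind_norm h hc, one_mul, h.ang _ _ (Ne.symm hij), div_pow,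
    Real.sq_sqrt (by positivity), one_pow]

omit [FiniteDimensional ℂ V] in
/-- the Weyl group is transitive on the lines -/
theorem weyl_trans (h : IsEtf d x) (c : Coord Z T e ψ l m) {π σ : Equiv.Perm ι}
    (hZ : Ind x Z π) (hT : Ind x T σ) (i j : ι) :
    ∃ a b : ZMod d, (π ^ a.val * σ ^ b.val) i = j := by
  by_contra hcon
  push Not at hcon
  have h1 := c.frame (x j) (x i)
  have h2 : ∀ a b : ZMod d, ‖inner ℂ (x j) ((Z ^ a.val * T ^ b.val) (x i))‖ ^ 2 =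
      1 / ((d : ℝ) + 1) :=
    fun a b => sq_norm_of_ne h ((ind_pow hZ _).mul (ind_pow hT _)) (hcon a b)
  rw [sum_congr rfl fun b _ => sum_congr rfl fun a _ => h2 a b, sum_const, sum_const, card_univ,
    ZMod.card, h.nrm, h.nrm] at h1
  have hd0 : (0 : ℝ) < d := by exact_mod_cast Nat.pos_of_ne_zero (NeZero.ne d)
  simp only [nsmul_eq_mul] at h1
  field_simp at h1
  linarith

variable [Fintype ι]

omit [FiniteDimensional ℂ V] in
/-- the Weyl group is regular on the lines -/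
theorem weyl_bij (h : IsEtf d x) (hcard : Fintype.card ι = d ^ 2) (c : Coord Z T e ψ l m)
    {π σ : Equiv.Perm ι} (hZ : Ind x Z π) (hT : Ind x T σ) (i : ι) :
    Function.Bijective (fun ab : ZMod d × ZMod d => (π ^ ab.1.val * σ ^ ab.2.val) i) := by
  classical
  rw [Fintype.bijective_iff_surjective_and_card]
  refine ⟨fun j => ?_, ?_⟩
  · obtain ⟨a, b, hab⟩ := weyl_trans h c hZ hT i j
    exact ⟨(a, b), hab⟩
  · rw [Fintype.card_prod, ZMod.card, hcard, sq]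

/-- the weight of a line -/
noncomputable def wt (e : OrthonormalBasis (ZMod d) ℂ V) (x : ι → V) (i : ι) (j : ZMod d) : ℝ :=
  ‖inner ℂ (e j) (x i)‖ ^ 2

omit [FiniteDimensional ℂ V] in
theorem wt_autocorr (h : IsEtf d x) (hcard : Fintype.card ι = d ^ 2) (c : Coord Z T e ψ l m)
    {π σ : Equiv.Perm ι} (hZ : Ind x Z π) (hT : Ind x T σ) (i : ι) :
    ∑ j, wt e x i j = 1 ∧ ∀ s : ZMod d,
      ∑ j, wt e x i j * wt e x i (j + s) = (1 + if s = 0 then 1 else 0) / ((d : ℝ) + 1) := by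
  have h1 : ∑ j, wt e x i j = 1 := by
    simp only [wt]
    rw [e.sum_sq_norm_inner_right, h.nrm, one_pow]
  refine ⟨h1, autocorr c.prim _ h1 fun k hk => ?_⟩
  have hne : (π ^ k.val * σ ^ (0 : ZMod d).val) i ≠ i := by
    intro h2
    have h3 : (π ^ k.val * σ ^ (0 : ZMod d).val) i =
        (π ^ (0 : ZMod d).val * σ ^ (0 : ZMod d).val) i := by
      rw [h2, ZMod.val_zero, pow_zero, pow_zero]
      rfl
    have h4 := (weyl_bij h hcard c hZ hT i).1 (a₁ := (k, 0)) (a₂ := (0, 0)) h3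
    exact hk (congrArg Prod.fst h4)
  have h5 := sq_norm_of_ne h ((ind_pow hZ _).mul (ind_pow hT _)) hne
  rw [← h5, ← e.sum_inner_mul_inner (x i)]
  have h6 : ∑ j, inner ℂ (x i) (e j) *
      inner ℂ (e j) ((Z ^ k.val * T ^ (0 : ZMod d).val) (x i)) =
      l ^ k.val * ∑ j, (wt e x i j : ℂ) * ψ (k * j) := by
    rw [mul_sum]
    refine sum_congr rfl fun j _ => ?_
    rw [c.inner_word, sub_zero, ZMod.val_zero, pow_zero, mul_one, wt]
    push_cast
    rw [← Complex.mul_conj', inner_conj_symm]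
    ring
  rw [h6, norm_mul, norm_pow, c.hl, one_pow, one_mul]

end Q17.SICN
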